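import Mathlib

/-!
# MP_b2f7c1_co (Q1): bi-infinite factorizations over sets of words with conjugate roots

Let `X` be a finite set of non-empty words of combinatorial rank `|X|` whose primitive roots are
pairwise conjugate.  If a bi-infinite word `w` has two different `X`-factorizations, then every
`X`-factorization of `w` is of the form `α^ℤ` with `α ∈ X`.

Idea.  Passing to the primitive roots (a set `R` with `|R| = |X|` and full rank, all of whose words
are conjugate, of length `m`) we have cut points `a₀ + m ℤ` and `a₀ + c + m ℤ`.  If the residues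
agree, the two factorizations are equal or constant.  Otherwise put `P_j = w[a₀ + jm, a₀ + jm + c)`
and `Q_j = w[a₀ + c + jm, a₀ + (j+1)m)`; all `P_j Q_j` and `Q_j P_{j+1}` are in `R`.

* (`turn_exists`) Looking at the place where the least rotation `L` (the Lyndon conjugate) starts
  inside `P Q`, one sees for the greatest `P_j` that, unless all `P_j` and all `Q_j` are equal, some
  pair `{P, Q}` occurs in both orders (`P Q, Q P ∈ R`) next to a turn.
* (`rt_core`) Cut the periodic word with period `Q P` at all places where a word of `R` starts.  The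
  arcs form a set `Z` with `R ⊆ Z^*`, `|Z| ≤ |R|`, and the turn gives either two equal arcs or a
  right-infinite word with two `Z`-factorizations starting with different arcs; then the defect
  theorem (`defect`) gives a smaller set, which contradicts the full rank.
-/

namespace Pool.Agent.Results.MP_b2f7c1_co.ConjugateRoots

universe u

/-- `Gen Z` is `Z^*`, the set of all products of elements of `Z`. -/
def Gen {α : Type u} (Z : Set (List α)) : Set (List α) :=
  {l | ∃ L : List (List α), (∀ u ∈ L, u ∈ Z) ∧ L.flatten = l}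

/-- The factor `w(a) w(a+1) ... w(a+n-1)` of a bi-infinite word. -/
def seg {α : Type u} (w : ℤ → α) (a : ℤ) (n : ℕ) : List α :=
  (List.range n).map (fun t : ℕ => w (a + t))

/-- The block `w(a) ... w(b-1)`. -/
def block {α : Type u} (w : ℤ → α) (a b : ℤ) : List α := seg w a (b - a).toNat

/-- An `X`-factorization of the bi-infinite word `w`: a strictly increasing bi-infinite sequence
of cut points (automatically unbounded in both directions) all of whose blocks are in `X`. -/
structure IsFactorization {α : Type u} (X : Finset (List α)) (w : ℤ → α) (c : ℤ → ℤ) : Prop where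
  strictMono : StrictMono c
  mem : ∀ i, block w (c i) (c (i + 1)) ∈ X

/-- The combinatorial rank: the least size of a set `Z` of non-empty words with `X ⊆ Z^*`. -/
noncomputable def combRank {α : Type u} (X : Finset (List α)) : ℕ :=
  sInf {n | ∃ Z : Finset (List α), (∀ z ∈ Z, z ≠ []) ∧ (∀ x ∈ X, x ∈ Gen (Z : Set (List α))) ∧
    Z.card = n}

/-- `r` is a primitive word. -/
def IsPrimitive {α : Type u} (r : List α) : Prop :=
  r ≠ [] ∧ ∀ (v : List α) (k : ℕ), r = (List.replicate k v).flatten → k = 1

/-- `r` is a primitive root of `u`: `r` is primitive and `u = r^k` with `k ≥ 1`. -/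
def IsRoot {α : Type u} (r u : List α) : Prop :=
  IsPrimitive r ∧ ∃ k ≥ 1, u = (List.replicate k r).flatten

section gen
variable {α : Type u}

theorem Gen.nil (Z : Set (List α)) : ([] : List α) ∈ Gen Z := ⟨[], by simp, rfl⟩

theorem Gen.of_mem {Z : Set (List α)} {u : List α} (h : u ∈ Z) : u ∈ Gen Z :=
  ⟨[u], by simpa using h, by simp⟩

theorem Gen.append {Z : Set (List α)} {u v : List α} (hu : u ∈ Gen Z) (hv : v ∈ Gen Z) :
    u ++ v ∈ Gen Z := by
  obtain ⟨L, hL, rfl⟩ := hu
  obtain ⟨M, hM, rfl⟩ := hv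
  refine ⟨L ++ M, ?_, List.flatten_append⟩
  intro w hw
  rcases List.mem_append.mp hw with h | h
  · exact hL w h
  · exact hM w h

theorem Gen.trans {Z Z' : Set (List α)} (h : ∀ z ∈ Z, z ∈ Gen Z') {u : List α} (hu : u ∈ Gen Z) :
    u ∈ Gen Z' := by
  obtain ⟨L, hL, rfl⟩ := hu
  induction L with
  | nil => exact Gen.nil _
  | cons a L ih =>
    rw [List.flatten_cons]
    exact Gen.append (h a (hL a (by simp))) (ih (fun w hw => hL w (by simp [hw])))

end gen

section defect
variable {α : Type u}

/-- Prepend a finite word to a right-infinite word. -/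
def app (z : List α) (y : ℕ → α) : ℕ → α := fun n => if h : n < z.length then z[n] else y (n - z.length)

theorem app_nil (y : ℕ → α) : app [] y = y := by
  funext n; simp [app]

theorem app_append (u v : List α) (y : ℕ → α) : app (u ++ v) y = app u (app v y) := by
  funext n
  unfold app
  by_cases h1 : n < u.length
  · have h2 : n < (u ++ v).length := by rw [List.length_append]; omega
    simp only [h1, h2, dite_true, List.getElem_append_left]
  · by_cases h2 : n < (u ++ v).length
    · have h3 : n - u.length < v.length := by rw [List.length_append] at h2; omega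
      simp only [h1, h2, h3, dite_true, dite_false]
      rw [List.getElem_append_right (by omega)]
    · have h3 : ¬ n - u.length < v.length := by rw [List.length_append] at h2; omega
      simp only [h1, h2, h3, dite_false]
      rw [List.length_append]; congr 1; omega

theorem app_prefix {u v : List α} {y y' : ℕ → α} (h : app u y = app v y')
    (hl : u.length ≤ v.length) : ∃ s, v = u ++ s ∧ y = app s y' := by
  have hpre : u <+: v := by
    rw [List.prefix_iff_getElem]
    refine ⟨hl, ?_⟩
    intro n hn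
    have := congrFun h n
    unfold app at this
    rw [dif_pos hn, dif_pos (by omega)] at this
    exact this
  obtain ⟨s, rfl⟩ := hpre
  refine ⟨s, rfl, ?_⟩
  rw [app_append] at h
  funext n
  have := congrFun h (u.length + n)
  unfold app at this
  rw [dif_neg (by omega), dif_neg (by omega)] at this
  rw [show u.length + n - u.length = n by omega] at this
  exact this

open Classical in
/-- The defect theorem for right-infinite words: if `y₁, y₂` are in a set `T` of right-infinite
words which is closed under splitting off words of `Z`, and `z₁ y₁ = z₂ y₂` with different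
`z₁, z₂ ∈ Z`, then `Z` is contained in `Z'^*` with `Z'` smaller than `Z`. -/
theorem defect (N : ℕ) : ∀ (Z : Finset (List α)), (∀ z ∈ Z, z ≠ []) → (∑ z ∈ Z, z.length) ≤ N →
    ∀ T : Set (ℕ → α), (∀ y ∈ T, ∃ z ∈ Z, ∃ y' ∈ T, y = app z y') →
    ∀ z₁ ∈ Z, ∀ z₂ ∈ Z, z₁ ≠ z₂ → ∀ y₁ ∈ T, ∀ y₂ ∈ T, app z₁ y₁ = app z₂ y₂ →
    ∃ Z' : Finset (List α), (∀ z ∈ Z', z ≠ []) ∧ Z'.card < Z.card ∧
      ∀ z ∈ Z, z ∈ Gen (Z' : Set (List α)) := by
  induction N with
  | zero =>
    intro Z hZ hsum T hT z₁ h₁ z₂ h₂ hne
    exfalso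
    have h0 : z₁.length ≤ ∑ z ∈ Z, z.length := Finset.single_le_sum (f := fun z : List α => z.length) (fun _ _ => Nat.zero_le _) h₁
    have : z₁.length = 0 := by omega
    exact hZ z₁ h₁ (List.length_eq_zero_iff.mp this)
  | succ N ih =>
    -- reduce to the case `|z₁| ≤ |z₂|`
    have main : ∀ (Z : Finset (List α)), (∀ z ∈ Z, z ≠ []) → (∑ z ∈ Z, z.length) ≤ N + 1 →
        ∀ T : Set (ℕ → α), (∀ y ∈ T, ∃ z ∈ Z, ∃ y' ∈ T, y = app z y') →
        ∀ z₁ ∈ Z, ∀ z₂ ∈ Z, z₁ ≠ z₂ → ∀ y₁ ∈ T, ∀ y₂ ∈ T, app z₁ y₁ = app z₂ y₂ →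
        z₁.length ≤ z₂.length →
        ∃ Z' : Finset (List α), (∀ z ∈ Z', z ≠ []) ∧ Z'.card < Z.card ∧
          ∀ z ∈ Z, z ∈ Gen (Z' : Set (List α)) := by
      intro Z hZ hsum T hT z₁ h₁ z₂ h₂ hne y₁ hy₁ y₂ hy₂ heq hlen
      obtain ⟨s, hs, hys⟩ := app_prefix heq hlen
      have hs0 : s ≠ [] := by
        rintro rfl
        exact hne (by rw [hs, List.append_nil])
      have hz₁0 : z₁ ≠ [] := hZ z₁ h₁
      have hlz₁ : 0 < z₁.length := List.length_pos_iff.mpr hz₁0
      have hsl : s.length < z₂.length := by rw [hs, List.length_append]; omega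
      have hsne : s ≠ z₂ := fun h => by rw [h] at hsl; omega
      by_cases hsZ : s ∈ Z
      · refine ⟨Z.erase z₂, fun z hz => hZ z (Finset.mem_of_mem_erase hz),
          Finset.card_erase_lt_of_mem h₂, ?_⟩
        intro z hz
        by_cases hzz : z = z₂
        · rw [hzz, hs]
          refine Gen.append (Gen.of_mem ?_) (Gen.of_mem ?_)
          · rw [Finset.mem_coe, Finset.mem_erase]
            exact ⟨by rw [← hs]; exact hne, h₁⟩
          · rw [Finset.mem_coe, Finset.mem_erase]
            exact ⟨by rw [← hs]; exact hsne, hsZ⟩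
        · exact Gen.of_mem (by rw [Finset.mem_coe, Finset.mem_erase]; exact ⟨hzz, hz⟩)
      · set Z1 : Finset (List α) := insert s (Z.erase z₂) with hZ1
        have hs_not : s ∉ Z.erase z₂ := fun h => hsZ (Finset.mem_of_mem_erase h)
        have hcard : Z1.card = Z.card := by
          rw [hZ1, Finset.card_insert_of_notMem hs_not, Finset.card_erase_of_mem h₂]
          have : 0 < Z.card := Finset.card_pos.mpr ⟨z₂, h₂⟩
          omega
        have hz₁Z1 : z₁ ∈ Z1 := Finset.mem_insert_of_mem (Finset.mem_erase.mpr ⟨hne, h₁⟩)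
        have hsZ1 : s ∈ Z1 := Finset.mem_insert_self _ _
        have hsum1 : (∑ z ∈ Z1, z.length) ≤ N := by
          rw [hZ1, Finset.sum_insert hs_not]
          have h3 := Finset.add_sum_erase Z (fun z : List α => z.length) h₂
          omega
        have hZZ1 : ∀ z ∈ Z, z ∈ Gen (Z1 : Set (List α)) := by
          intro z hz
          by_cases hzz : z = z₂
          · rw [hzz, hs]
            exact Gen.append (Gen.of_mem hz₁Z1) (Gen.of_mem hsZ1)
          · exact Gen.of_mem (Finset.mem_insert_of_mem (Finset.mem_erase.mpr ⟨hzz, hz⟩))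
        set T1 : Set (ℕ → α) := T ∪ {y | ∃ y' ∈ T, y = app s y'} with hT1
        have hunroll : ∀ y ∈ T1, ∃ z ∈ Z1, ∃ y' ∈ T1, y = app z y' := by
          intro y hy
          rcases hy with hy | ⟨y', hy', rfl⟩
          · obtain ⟨z, hz, y', hy', rfl⟩ := hT y hy
            by_cases hzz : z = z₂
            · refine ⟨z₁, hz₁Z1, app s y', Or.inr ⟨y', hy', rfl⟩, ?_⟩
              rw [hzz, hs, app_append]
            · exact ⟨z, Finset.mem_insert_of_mem (Finset.mem_erase.mpr ⟨hzz, hz⟩), y',
                Or.inl hy', rfl⟩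
          · exact ⟨s, hsZ1, y', Or.inl hy', rfl⟩
        have hne1 : ∀ z ∈ Z1, z ≠ [] := by
          intro z hz
          rcases Finset.mem_insert.mp hz with h | h
          · rw [h]; exact hs0
          · exact hZ z (Finset.mem_of_mem_erase h)
        obtain ⟨z, hz, y', hy', hyy⟩ := hT y₁ hy₁
        have hfin : ∃ Z' : Finset (List α), (∀ z ∈ Z', z ≠ []) ∧ Z'.card < Z1.card ∧
            ∀ z ∈ Z1, z ∈ Gen (Z' : Set (List α)) := by
          by_cases hzz : z = z₂
          · have hzs : z₁ ≠ s := fun h => hsZ (h ▸ h₁)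
            refine ih Z1 hne1 hsum1 T1 hunroll z₁ hz₁Z1 s hsZ1 hzs (app s y')
              (Or.inr ⟨y', hy', rfl⟩) y₂ (Or.inl hy₂) ?_
            rw [← app_append, ← hs, ← hzz, ← hyy, hys]
          · have hzs : z ≠ s := fun h => hsZ (h ▸ hz)
            refine ih Z1 hne1 hsum1 T1 hunroll z
              (Finset.mem_insert_of_mem (Finset.mem_erase.mpr ⟨hzz, hz⟩)) s hsZ1 hzs y'
              (Or.inl hy') y₂ (Or.inl hy₂) ?_
            rw [← hyy, hys]
        obtain ⟨Z', a1, a2, a3⟩ := hfin
        refine ⟨Z', a1, by rw [← hcard]; exact a2, ?_⟩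
        intro z hz
        exact Gen.trans (fun x hx => a3 x hx) (hZZ1 z hz)
    intro Z hZ hsum T hT z₁ h₁ z₂ h₂ hne y₁ hy₁ y₂ hy₂ heq
    rcases le_total z₁.length z₂.length with h | h
    · exact main Z hZ hsum T hT z₁ h₁ z₂ h₂ hne y₁ hy₁ y₂ hy₂ heq h
    · exact main Z hZ hsum T hT z₂ h₂ z₁ h₁ hne.symm y₂ hy₂ y₁ hy₁ heq.symm h

end defect

section seg
variable {α : Type u}

@[simp] theorem seg_length (w : ℤ → α) (a : ℤ) (n : ℕ) : (seg w a n).length = n := by
  simp [seg]

theorem seg_getElem (w : ℤ → α) (a : ℤ) (n : ℕ) (k : ℕ) (h : k < (seg w a n).length) :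
    (seg w a n)[k] = w (a + k) := by
  simp [seg]

theorem seg_add (w : ℤ → α) (a : ℤ) (n k : ℕ) :
    seg w a (n + k) = seg w a n ++ seg w (a + n) k := by
  unfold seg
  rw [List.range_add, List.map_append, List.map_map]
  congr 1
  apply List.map_congr_left
  intro t _
  simp [add_assoc]

theorem seg_eq_iff {w v : ℤ → α} {a b : ℤ} {n : ℕ} :
    seg w a n = seg v b n ↔ ∀ t : ℕ, t < n → w (a + t) = v (b + t) := by
  constructor
  · intro h t ht
    have h1 := seg_getElem w a n t (by simpa using ht)
    have h2 := seg_getElem v b n t (by simpa using ht)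
    rw [← h1, ← h2]
    simp only [h]
  · intro h
    apply List.ext_getElem (by simp)
    intro k h1 h2
    rw [seg_getElem, seg_getElem]
    exact h k (by simpa using h1)

/-- the right-infinite tail -/
def tail (w : ℤ → α) (a : ℤ) : ℕ → α := fun t => w (a + t)

theorem app_seg_tail (w : ℤ → α) (a : ℤ) (n : ℕ) : app (seg w a n) (tail w (a + n)) = tail w a := by
  funext t
  unfold app tail
  by_cases h : t < (seg w a n).length
  · rw [dif_pos h, seg_getElem]
  · rw [dif_neg h]
    rw [seg_length] at h ⊢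
    congr 1; push_cast [Nat.cast_sub (by omega : n ≤ t)]; ring

/-- a word is a factor of the periodic word of any of its conjugates -/
theorem exists_seg_of_isRotated {r : ℤ → α} {m : ℕ} (hr : ∀ t, r (t + m) = r t)
    {k : ℤ} {W : List α} (h : W ~r seg r k m) : ∃ l : ℤ, W = seg r l m := by
  obtain ⟨n, hn, hrot⟩ := List.isRotated_iff_mod.mp h.symm
  rw [seg_length] at hn
  refine ⟨k + n, ?_⟩
  rw [← hrot, List.rotate_eq_drop_append_take (by simpa using hn)]
  have h1 : seg r k m = seg r k n ++ seg r (k + n) (m - n) := by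
    rw [← seg_add, show n + (m - n) = m by omega]
  have h2 : seg r (k + n) m = seg r (k + n) (m - n) ++ seg r (k + n + (m - n : ℕ)) n := by
    rw [← seg_add, show m - n + n = m by omega]
  have h3 : seg r (k + n + (m - n : ℕ)) n = seg r k n := by
    rw [seg_eq_iff]
    intro t _
    rw [← hr (k + t)]
    congr 1; push_cast [Nat.cast_sub hn]; ring
  rw [h2, h3, h1]
  rw [List.drop_left' (by simp), List.take_left' (by simp)]

end seg

section core
variable {α : Type u}

open Classical in
/-- The core: a walk in which the word before the turn is traversed in both directions. -/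
theorem rt_core (R : Finset (List α)) (m : ℕ) (hm : 0 < m) (w : ℤ → α) (p : ℤ → ℤ)
    (hp : ∀ i, p (i + 2) = p i + m) (hR : ∀ i, seg w (p i) m ∈ R)
    (hconj : ∀ W ∈ R, ∀ W' ∈ R, W ~r W') (i : ℤ) (a b : ℕ) (ha : 0 < a)
    (hab : a + b = m) (hpa : p (i + 1) = p i + a) (hpb : p i = p (i - 1) + b)
    (hturn : seg w (p i) a ++ seg w (p (i - 1)) b ∈ R)
    (hne : seg w (p (i - 1)) b ≠ seg w (p (i + 1)) b) :
    ∃ Z : Finset (List α), (∀ z ∈ Z, z ≠ []) ∧ Z.card < R.card ∧
      ∀ W ∈ R, W ∈ Gen (Z : Set (List α)) := by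
  -- the periodic word `r` with period `y x` where `x = w[p i, p (i+1))`, `y = w[p (i-1), p i)`
  set r : ℤ → α := fun t => w (p (i - 1) + t % m) with hr_def
  have hr : ∀ t, r (t + m) = r t := by
    intro t; simp only [hr_def, Int.add_emod_right]
  have hrz : ∀ (q : ℤ) t, r (t + m * q) = r t := by
    intro q t; simp only [hr_def, Int.add_mul_emod_self_left]
  have hrw : ∀ t : ℕ, t < m → r t = w (p (i - 1) + t) := by
    intro t ht
    simp only [hr_def]
    rw [Int.emod_eq_of_lt (by omega) (by omega)]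
  have hrw' : ∀ t : ℕ, t < m → r (t + (0 : ℤ)) = w (p (i - 1) + t) := by
    intro t ht; rw [add_zero]; exact hrw t ht
  -- `y x` is at position `0`
  have h0 : seg r 0 m = seg w (p (i - 1)) m := by
    rw [seg_eq_iff]; intro t ht; rw [zero_add]; exact hrw t ht
  have hy : seg r 0 b = seg w (p (i - 1)) b := by
    rw [seg_eq_iff]; intro t ht; rw [zero_add]; exact hrw t (by omega)
  have hx : seg r b a = seg w (p i) a := by
    rw [seg_eq_iff]; intro t ht
    have := hrw (b + t) (by omega)
    push_cast at this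
    rw [this, hpb]; congr 1; ring
  have hxy : seg r b m = seg w (p i) a ++ seg w (p (i - 1)) b := by
    rw [← hab, seg_add, hx]
    congr 1
    rw [seg_eq_iff]; intro t ht
    rw [show (b : ℤ) + a + t = t + (m : ℤ) by rw [← hab]; push_cast; ring, hr]
    exact hrw t (by omega)
  set K : Set ℤ := {k | seg r k m ∈ R} with hK
  have hK0 : (0 : ℤ) ∈ K := by
    show seg r 0 m ∈ R
    rw [h0]; exact hR (i - 1)
  have hKb : (b : ℤ) ∈ K := by
    show seg r b m ∈ R
    rw [hxy]; exact hturn
  have hKm : ∀ k ∈ K, k + m ∈ K := by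
    intro k hk
    show seg r (k + m) m ∈ R
    have : seg r (k + m) m = seg r k m := by
      rw [seg_eq_iff]; intro t _
      rw [show k + m + t = k + t + (m : ℤ) by ring, hr]
    rw [this]; exact hk
  -- every word of `R` is a factor of `r` at a position of `K`
  have hex : ∀ W ∈ R, ∃ k : ℤ, W = seg r k m := by
    intro W hW
    exact exists_seg_of_isRotated hr (hconj W hW (seg r 0 m) hK0)
  choose! pos hpos using hex
  -- the next element of `K`
  have hnext : ∀ k : ℤ, k ∈ K → ∃ n : ℕ, 0 < n ∧ k + n ∈ K := fun k hk => ⟨m, hm, hKm k hk⟩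
  let nx : ℤ → ℕ := fun k => if hk : k ∈ K then Nat.find (hnext k hk) else 1
  have nx_pos : ∀ k ∈ K, 0 < nx k := by
    intro k hk
    have := (Nat.find_spec (hnext k hk)).1
    simp only [nx, dif_pos hk]; exact this
  have nx_mem : ∀ k ∈ K, k + nx k ∈ K := by
    intro k hk
    have := (Nat.find_spec (hnext k hk)).2
    simp only [nx, dif_pos hk]; exact this
  have nx_min : ∀ k ∈ K, ∀ n : ℕ, 0 < n → k + n ∈ K → nx k ≤ n := by
    intro k hk n hn hkn
    have := Nat.find_min' (hnext k hk) ⟨hn, hkn⟩
    simp only [nx, dif_pos hk]; exact this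
  let arc : ℤ → List α := fun k => seg r k (nx k)
  -- the arc at `k` depends only on the word at `k`
  have harc : ∀ k ∈ K, ∀ l ∈ K, seg r k m = seg r l m → arc k = arc l := by
    intro k hk l hl hkl
    have hshift : ∀ t : ℤ, r (k + t) = r (l + t) := by
      intro t
      have r0 : 0 ≤ t % (m : ℤ) := Int.emod_nonneg _ (by omega)
      have r1 : t % (m : ℤ) < m := Int.emod_lt_of_pos _ (by omega)
      have hdiv : (m : ℤ) * (t / m) + t % m = t := Int.mul_ediv_add_emod t m
      have h1 := seg_eq_iff.mp hkl (t % (m : ℤ)).toNat (by omega)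
      rw [Int.toNat_of_nonneg r0] at h1
      rw [show k + t = k + t % m + m * (t / m) by linarith,
        show l + t = l + t % m + m * (t / m) by linarith, hrz, hrz, h1]
    have hmemiff : ∀ n : ℕ, k + n ∈ K ↔ l + n ∈ K := by
      intro n
      have : seg r (k + n) m = seg r (l + n) m := by
        rw [seg_eq_iff]; intro t _
        rw [add_assoc, add_assoc]; exact hshift _
      simp only [hK, Set.mem_ofPred_eq, this]
    have hnx : nx k = nx l := by
      apply le_antisymm
      · exact nx_min k hk _ (nx_pos l hl) ((hmemiff _).mpr (nx_mem l hl))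
      · exact nx_min l hl _ (nx_pos k hk) ((hmemiff _).mp (nx_mem k hk))
    show seg r k (nx k) = seg r l (nx l)
    rw [hnx, seg_eq_iff]
    intro t _; exact hshift t
  have hposK : ∀ W ∈ R, pos W ∈ K := by
    intro W hW
    show seg r (pos W) m ∈ R
    rw [← hpos W hW]; exact hW
  set Z : Finset (List α) := R.image (fun W => arc (pos W)) with hZ
  have arc_mem : ∀ k ∈ K, arc k ∈ Z := by
    intro k hk
    rw [hZ, Finset.mem_image]
    refine ⟨seg r k m, hk, ?_⟩
    exact harc _ (hposK _ hk) k hk (hpos _ hk).symm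
  have hZne : ∀ z ∈ Z, z ≠ [] := by
    intro z hz
    rw [hZ, Finset.mem_image] at hz
    obtain ⟨W, hW, rfl⟩ := hz
    intro h0
    have h1 : (arc (pos W)).length = nx (pos W) := seg_length _ _ _
    have h2 := nx_pos _ (hposK W hW)
    rw [h0] at h1
    simp at h1; omega
  -- words between two cuts are products of arcs
  have hgen : ∀ n : ℕ, ∀ k ∈ K, k + n ∈ K → seg r k n ∈ Gen (Z : Set (List α)) := by
    intro n
    induction n using Nat.strong_induction_on with
    | _ n ih =>
      intro k hk hkn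
      rcases Nat.eq_zero_or_pos n with h | h
      · rw [h]; exact Gen.nil _
      · have h1 := nx_min k hk n h hkn
        have h2 := nx_pos k hk
        have h3 : seg r k n = arc k ++ seg r (k + nx k) (n - nx k) := by
          show seg r k n = seg r k (nx k) ++ _
          rw [← seg_add, show nx k + (n - nx k) = n by omega]
        rw [h3]
        refine Gen.append (Gen.of_mem (arc_mem k hk)) (ih (n - nx k) (by omega) _ (nx_mem k hk) ?_)
        have : k + (nx k : ℤ) + ((n - nx k : ℕ) : ℤ) = k + n := by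
          push_cast [Nat.cast_sub h1]; ring
        rw [this]; exact hkn
  have hRgen : ∀ W ∈ R, W ∈ Gen (Z : Set (List α)) := by
    intro W hW
    rw [hpos W hW]
    exact hgen m _ (hposK W hW) (hKm _ (hposK W hW))
  have hZcard : Z.card ≤ R.card := Finset.card_image_le
  -- the position of the word `x y'`
  have hW1 : seg w (p i) m ∈ R := hR i
  set k₁ := pos (seg w (p i) m) with hk₁
  have hk₁K : k₁ ∈ K := hposK _ hW1
  have hk₁eq : seg w (p i) m = seg r k₁ m := hpos _ hW1
  by_cases harceq : arc b = arc k₁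
  · -- two different words of `R` have the same arc
    refine ⟨Z, hZne, ?_, hRgen⟩
    refine lt_of_le_of_ne hZcard ?_
    intro hcard
    have hinj : Set.InjOn (fun W => arc (pos W)) (R : Set (List α)) :=
      Finset.card_image_iff.mp hcard
    have hWb : seg r b m ∈ R := hKb
    have e1 : arc (pos (seg r b m)) = arc b :=
      harc _ (hposK _ hWb) b hKb (hpos _ hWb).symm
    have e2 : (fun W => arc (pos W)) (seg r b m) = (fun W => arc (pos W)) (seg w (p i) m) := by
      show arc (pos (seg r b m)) = arc (pos (seg w (p i) m))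
      rw [e1, harceq]
    have e3 := hinj hWb hW1 e2
    rw [hxy, ← hab, seg_add, ← hpa] at e3
    exact hne (List.append_cancel_left e3)
  · -- use the defect theorem
    set T : Set (ℕ → α) := {y | ∃ k ∈ K, ∃ n : ℕ, 0 < n ∧ k + n ∈ K ∧ ∃ j, y = app (seg r k n) (tail w (p j))}
      with hT
    have htail : ∀ j, tail w (p j) ∈ T := by
      intro j
      refine ⟨pos (seg w (p j) m), hposK _ (hR j), m, hm, hKm _ (hposK _ (hR j)), j + 2, ?_⟩
      rw [← hpos _ (hR j), hp]
      exact (app_seg_tail w (p j) m).symm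
    have hsplit : ∀ k ∈ K, ∀ n : ℕ, 0 < n → k + n ∈ K → ∀ j,
        ∃ y' ∈ T, app (seg r k n) (tail w (p j)) = app (arc k) y' := by
      intro k hk n hn hkn j
      have h1 := nx_min k hk n hn hkn
      have h3 : seg r k n = arc k ++ seg r (k + nx k) (n - nx k) := by
        show seg r k n = seg r k (nx k) ++ _
        rw [← seg_add, show nx k + (n - nx k) = n by omega]
      rcases Nat.eq_zero_or_pos (n - nx k) with h4 | h4
      · refine ⟨tail w (p j), htail j, ?_⟩
        rw [h3, h4]
        have : seg r (k + nx k) 0 = [] := by simp [seg]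
        rw [this, List.append_nil]
      · refine ⟨app (seg r (k + nx k) (n - nx k)) (tail w (p j)),
          ⟨k + nx k, nx_mem k hk, n - nx k, h4, ?_, j, rfl⟩, ?_⟩
        · have : k + (nx k : ℤ) + ((n - nx k : ℕ) : ℤ) = k + n := by
            push_cast [Nat.cast_sub h1]; ring
          rw [this]; exact hkn
        · rw [h3, app_append]
    have hunroll : ∀ y ∈ T, ∃ z ∈ Z, ∃ y' ∈ T, y = app z y' := by
      rintro y ⟨k, hk, n, hn, hkn, j, rfl⟩
      obtain ⟨y', hy', he⟩ := hsplit k hk n hn hkn j
      exact ⟨arc k, arc_mem k hk, y', hy', he⟩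
    have hbm : (b : ℤ) + a ∈ K := by
      have : (b : ℤ) + a = 0 + m := by rw [← hab]; push_cast; ring
      rw [this]; exact hKm 0 hK0
    obtain ⟨y₁, hy₁, he₁⟩ := hsplit b hKb a ha hbm (i + 1)
    obtain ⟨y₂, hy₂, he₂⟩ := hsplit k₁ hk₁K m hm (hKm _ hk₁K) (i + 2)
    have heq : app (arc b) y₁ = app (arc k₁) y₂ := by
      rw [← he₁, ← he₂, ← hk₁eq, hx, hp, app_seg_tail, hpa, app_seg_tail]
    obtain ⟨Z', a1, a2, a3⟩ := defect _ Z hZne le_rfl T hunroll (arc b) (arc_mem _ hKb) (arc k₁)
      (arc_mem _ hk₁K) harceq y₁ hy₁ y₂ hy₂ heq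
    exact ⟨Z', a1, lt_of_lt_of_le a2 hZcard, fun W hW => Gen.trans (fun z hz => a3 z hz) (hRgen W hW)⟩

theorem Gen.reverse {Z : Set (List α)} {u : List α} (h : u ∈ Gen Z) :
    u.reverse ∈ Gen (List.reverse '' Z) := by
  obtain ⟨L, hL, rfl⟩ := h
  induction L with
  | nil => exact Gen.nil _
  | cons a L ih =>
    rw [List.flatten_cons, List.reverse_append]
    exact Gen.append (ih (fun w hw => hL w (by simp [hw])))
      (Gen.of_mem ⟨a, hL a (by simp), rfl⟩)

theorem seg_reverse (w : ℤ → α) (a : ℤ) (n : ℕ) :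
    seg (fun t => w (-1 - t)) (-(a + n)) n = (seg w a n).reverse := by
  apply List.ext_getElem (by simp)
  intro k h1 h2
  rw [seg_getElem, List.getElem_reverse, seg_getElem]
  rw [seg_length] at h1
  congr 1
  rw [seg_length]
  push_cast [Nat.cast_sub (by omega : k ≤ n - 1), Nat.cast_sub (by omega : 1 ≤ n)]
  ring

open Classical in
/-- The mirror image of `rt_core`. -/
theorem lt_core (R : Finset (List α)) (m : ℕ) (hm : 0 < m) (w : ℤ → α) (p : ℤ → ℤ)
    (hp : ∀ i, p (i + 2) = p i + m) (hR : ∀ i, seg w (p i) m ∈ R)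
    (hconj : ∀ W ∈ R, ∀ W' ∈ R, W ~r W') (i : ℤ) (a b : ℕ) (ha : 0 < a)
    (hab : a + b = m) (hpa : p (i + 1) = p i + a) (hpb : p i = p (i - 1) + b)
    (hturn : seg w (p (i + 1)) b ++ seg w (p i) a ∈ R)
    (hne : seg w (p (i - 1)) b ≠ seg w (p (i + 1)) b) :
    ∃ Z : Finset (List α), (∀ z ∈ Z, z ≠ []) ∧ Z.card < R.card ∧
      ∀ W ∈ R, W ∈ Gen (Z : Set (List α)) := by
  have hp2 : p (i + 2) = p (i + 1) + b := by
    rw [hp, hpa, ← hab]; push_cast; ring
  have hinj : Function.Injective (List.reverse : List α → List α) := List.reverse_injective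
  have hcard : (R.image List.reverse).card = R.card := Finset.card_image_of_injective _ hinj
  have key := rt_core (R.image List.reverse) m hm (fun t => w (-1 - t)) (fun j => -p (-j))
    (by
      intro j
      have := hp (-(j + 2))
      rw [show -(j + 2) + 2 = -j by ring] at this
      show -p (-(j + 2)) = -p (-j) + m
      rw [this]; ring)
    (by
      intro j
      have h1 := hp (-(j + 2))
      rw [show -(j + 2) + 2 = -j by ring] at h1
      show seg (fun t => w (-1 - t)) (-p (-j)) m ∈ _
      rw [h1, seg_reverse]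
      exact Finset.mem_image_of_mem _ (hR _))
    (by
      intro W hW W' hW'
      rw [Finset.mem_image] at hW hW'
      obtain ⟨U, hU, rfl⟩ := hW
      obtain ⟨U', hU', rfl⟩ := hW'
      exact (hconj U hU U' hU').reverse)
    (-(i + 1)) a b ha hab
    (by
      show -p (-(-(i + 1) + 1)) = -p (- -(i + 1)) + a
      rw [show -(-(i + 1) + 1) = i by ring, neg_neg, hpa]; ring)
    (by
      show -p (- -(i + 1)) = -p (-(-(i + 1) - 1)) + b
      rw [show -(-(i + 1) - 1) = i + 2 by ring, neg_neg, hp2]; ring)
    (by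
      show seg (fun t => w (-1 - t)) (-p (- -(i + 1))) a ++
        seg (fun t => w (-1 - t)) (-p (-(-(i + 1) - 1))) b ∈ _
      rw [show -(-(i + 1) - 1) = i + 2 by ring, neg_neg, hp2, hpa, seg_reverse]
      rw [← hpa, seg_reverse, ← List.reverse_append]
      exact Finset.mem_image_of_mem _ hturn)
    (by
      show seg (fun t => w (-1 - t)) (-p (-(-(i + 1) - 1))) b ≠
        seg (fun t => w (-1 - t)) (-p (-(-(i + 1) + 1))) b
      rw [show -(-(i + 1) - 1) = i + 2 by ring, show -(-(i + 1) + 1) = i by ring, hp2, hpb,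
        seg_reverse, seg_reverse]
      intro h
      exact hne (hinj h).symm)
  obtain ⟨Z, z1, z2, z3⟩ := key
  refine ⟨Z.image List.reverse, ?_, ?_, ?_⟩
  · intro z hz
    rw [Finset.mem_image] at hz
    obtain ⟨u, hu, rfl⟩ := hz
    intro h
    exact z1 u hu (by simpa using h)
  · rw [Finset.card_image_of_injective _ hinj, ← hcard]; exact z2
  · intro W hW
    have h1 := Gen.reverse (z3 W.reverse (Finset.mem_image_of_mem _ hW))
    rw [List.reverse_reverse] at h1
    rw [Finset.coe_image]; exact h1

end core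

section order
variable {α : Type u} [LinearOrder α]

theorem le_of_append_left_le {u v v' : List α} (h : u ++ v ≤ u ++ v') : v ≤ v' := by
  by_contra hcon
  have h1 : v' < v := not_le.mp hcon
  have h2 : u ++ v' < u ++ v := by
    clear h hcon
    induction u with
    | nil => exact h1
    | cons a u ih =>
      rw [List.cons_append, List.cons_append, List.cons_lt_cons_iff]
      exact Or.inr ⟨rfl, ih⟩
  exact absurd h (not_le.mpr h2)

theorem append_lt_of_lt {u v : List α} (hl : u.length = v.length) (h : u < v) (s t : List α) :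
    u ++ s < v ++ t := by
  induction u generalizing v with
  | nil =>
    have : v = [] := List.length_eq_zero_iff.mp (by simpa using hl.symm)
    subst this
    exact absurd h (lt_irrefl _)
  | cons a u ih =>
    cases v with
    | nil => simp at hl
    | cons b v =>
      rw [List.cons_lt_cons_iff] at h
      rw [List.cons_append, List.cons_append, List.cons_lt_cons_iff]
      rcases h with h | ⟨h1, h2⟩
      · exact Or.inl h
      · exact Or.inr ⟨h1, ih (by simpa using hl) h2⟩

theorem le_of_append_le {u v s t : List α} (hl : u.length = v.length) (h : u ++ s ≤ v ++ t) :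
    u ≤ v := by
  by_contra hcon
  have h1 : v < u := not_le.mp hcon
  exact absurd h (not_le.mpr (append_lt_of_lt hl.symm h1 t s))

omit [LinearOrder α] in
theorem dich {P Q L : List α} (h : (P ++ Q) ~r L) :
    (∃ P₁ P₂, P = P₁ ++ P₂ ∧ L = P₂ ++ (Q ++ P₁)) ∨ (∃ Q₁ Q₂, Q = Q₁ ++ Q₂ ∧ L = Q₂ ++ (P ++ Q₁)) := by
  obtain ⟨n, hn, hrot⟩ := List.isRotated_iff_mod.mp h
  rw [List.rotate_eq_drop_append_take hn] at hrot
  rcases le_total n P.length with h1 | h1
  · left
    refine ⟨P.take n, P.drop n, (List.take_append_drop n P).symm, ?_⟩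
    rw [← hrot, List.drop_append_of_le_length h1, List.take_append_of_le_length h1, List.append_assoc]
  · right
    refine ⟨Q.take (n - P.length), Q.drop (n - P.length), (List.take_append_drop _ Q).symm, ?_⟩
    rw [← hrot, List.drop_append, List.take_append, List.drop_eq_nil_of_le h1,
      List.take_of_length_le h1, List.nil_append]

theorem inP_le {P P₁ P₂ Q Q' L : List α} (hmin : ∀ u, u ~r L → L ≤ u) (hP : P = P₁ ++ P₂)
    (hL : L = P₂ ++ (Q ++ P₁)) (h : (P ++ Q') ~r L) (hl : Q.length = Q'.length) : Q ≤ Q' := by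
  have h1 : (P₂ ++ (Q' ++ P₁)) ~r L := by
    refine List.IsRotated.trans ?_ h
    rw [hP, ← List.append_assoc, List.append_assoc P₁]
    exact List.isRotated_append
  have h2 := hmin _ h1
  rw [hL] at h2
  exact le_of_append_le hl (le_of_append_left_le h2)

theorem turn_exists (R : Finset (List α)) (hconj : ∀ W ∈ R, ∀ W' ∈ R, W ~r W') (P Q : ℤ → List α)
    (hPl : ∀ i j, (P i).length = (P j).length) (hQl : ∀ i j, (Q i).length = (Q j).length)
    (hPQ : ∀ j, P j ++ Q j ∈ R) (hQP : ∀ j, Q j ++ P (j + 1) ∈ R)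
    (hnc : ¬ ∀ j, P j = P 0 ∧ Q j = Q 0) :
    ∃ j, (Q (j - 1) ≠ Q j ∧ Q j ++ P j ∈ R) ∨ (Q (j - 1) ≠ Q j ∧ P j ++ Q (j - 1) ∈ R) ∨
      (P j ≠ P (j + 1) ∧ Q j ++ P j ∈ R) ∨ (P j ≠ P (j + 1) ∧ P (j + 1) ++ Q j ∈ R) := by
  classical
  by_contra hcon
  push Not at hcon
  -- the least rotation
  set W₀ := P 0 ++ Q 0 with hW₀
  obtain ⟨L, hLrot, hLmin⟩ : ∃ L, W₀ ~r L ∧ ∀ u, u ~r L → L ≤ u := by
    set S : Finset (List α) := (Finset.range (W₀.length + 1)).image (fun n => W₀.rotate n) with hS
    have hSne : S.Nonempty := ⟨W₀.rotate 0, by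
      rw [hS]; exact Finset.mem_image_of_mem _ (by simp)⟩
    have hSrot : ∀ x ∈ S, W₀ ~r x := by
      intro x hx
      rw [hS, Finset.mem_image] at hx
      obtain ⟨n, _, hn⟩ := hx
      exact ⟨n, hn⟩
    refine ⟨S.min' hSne, hSrot _ (S.min'_mem hSne), ?_⟩
    · intro u hu
      apply Finset.min'_le
      have h2 : W₀ ~r S.min' hSne := hSrot _ (S.min'_mem hSne)
      obtain ⟨n, hn, hrot⟩ := List.isRotated_iff_mod.mp (h2.trans hu.symm)
      rw [hS, Finset.mem_image]
      exact ⟨n, by simp; omega, hrot⟩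
  have hall : ∀ W ∈ R, W ~r L := fun W hW => (hconj W hW W₀ (hPQ 0)).trans hLrot
  -- the greatest `P`
  obtain ⟨j₀, hmax⟩ : ∃ j₀, ∀ j, P j ≤ P j₀ := by
    have hfin : (Set.range P).Finite := by
      apply Set.Finite.subset (Finset.finite_toSet (R.image (fun W => W.take (P 0).length)))
      rintro _ ⟨j, rfl⟩
      rw [Finset.mem_coe, Finset.mem_image]
      refine ⟨P j ++ Q j, hPQ j, ?_⟩
      rw [hPl 0 j, List.take_left']
      rfl
    obtain ⟨x, ⟨j₀, rfl⟩, hx⟩ := Set.exists_max_image (Set.range P) id hfin ⟨P 0, 0, rfl⟩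
    exact ⟨j₀, fun j => hx (P j) ⟨j, rfl⟩⟩
  have hsucc : ∀ j, (P (j - 1) ++ Q (j - 1) ∈ R) ∧ (Q (j - 1) ++ P j ∈ R) := by
    intro j
    refine ⟨hPQ _, ?_⟩
    have := hQP (j - 1)
    rwa [sub_add_cancel] at this
  have claimA : ∀ j, P j = P j₀ → Q (j - 1) = Q j := by
    intro j hj
    by_contra hne
    have c1 : (P j ++ Q j) ~r L := hall _ (hPQ j)
    have c2 : (P j ++ Q (j - 1)) ~r L :=
      List.IsRotated.trans List.isRotated_append (hall _ (hsucc j).2)
    have bad1 : ∀ {Q₁ Q₂}, Q j = Q₁ ++ Q₂ → L = Q₂ ++ (P j ++ Q₁) → False := by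
      intro Q₁ Q₂ h1 h2
      have c3 : (Q j ++ P (j + 1)) ~r L := hall _ (hQP j)
      have h3 := inP_le hLmin h1 h2 c3 (hPl _ _)
      have h4 : P (j + 1) = P j := le_antisymm (by rw [hj]; exact hmax _) h3
      exact (hcon j).1 hne (by have := hQP j; rwa [h4] at this)
    have bad2 : ∀ {Q₁ Q₂}, Q (j - 1) = Q₁ ++ Q₂ → L = Q₂ ++ (P j ++ Q₁) → False := by
      intro Q₁ Q₂ h1 h2
      have c3 : (Q (j - 1) ++ P (j - 1)) ~r L :=
        List.IsRotated.trans List.isRotated_append (hall _ (hsucc j).1)
      have h3 := inP_le hLmin h1 h2 c3 (hPl _ _)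
      have h4 : P (j - 1) = P j := le_antisymm (by rw [hj]; exact hmax _) h3
      exact (hcon j).2.1 hne (by have := (hsucc j).1; rwa [h4] at this)
    rcases dich c1 with ⟨P₁, P₂, h1, h2⟩ | ⟨Q₁, Q₂, h1, h2⟩
    · rcases dich c2 with ⟨P₁', P₂', h1', h2'⟩ | ⟨Q₁, Q₂, h1', h2'⟩
      · have e1 := inP_le hLmin h1 h2 c2 (hQl _ _)
        have e2 := inP_le hLmin h1' h2' c1 (hQl _ _)
        exact hne (le_antisymm e2 e1)
      · exact bad2 h1' h2'
    · exact bad1 h1 h2
  have claimB : ∀ j, P j = P j₀ → P (j + 1) = P j₀ := by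
    intro j hj
    by_contra hne
    have h1 : P j ≠ P (j + 1) := fun h => hne (h ▸ hj)
    refine (hcon j).2.2.1 h1 ?_
    rw [← claimA j hj]; exact (hsucc j).2
  have claimC : ∀ j, P j = P j₀ → P (j - 1) = P j₀ := by
    intro j hj
    by_contra hne
    have h1 : P (j - 1) ≠ P (j - 1 + 1) := fun h => hne (by rw [h, sub_add_cancel]; exact hj)
    refine (hcon (j - 1)).2.2.2 h1 ?_
    rw [sub_add_cancel, claimA j hj]; exact hPQ j
  have hallP : ∀ j, P j = P j₀ := by
    intro j
    have h : ∀ n : ℤ, P (j₀ + n) = P j₀ := by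
      intro n
      induction n using Int.induction_on with
      | zero => simp
      | succ n ih => rw [← add_assoc]; exact claimB _ ih
      | pred n ih => rw [← add_sub_assoc]; exact claimC _ ih
    have := h (j - j₀)
    rwa [add_sub_cancel] at this
  have hallQ : ∀ j, Q j = Q 0 := by
    intro j
    induction j using Int.induction_on with
    | zero => rfl
    | succ n ih =>
      have := claimA ((n : ℤ) + 1) (hallP _)
      rw [add_sub_cancel_right] at this
      rw [← this]; exact ih
    | pred n ih =>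
      rw [claimA (-(n : ℤ)) (hallP _)]; exact ih
  exact hnc (fun j => ⟨by rw [hallP j, hallP 0], hallQ j⟩)

end order

section final
variable {α : Type u}

theorem flatten_replicate_mul (k l : ℕ) (r : List α) :
    (List.replicate k (List.replicate l r).flatten).flatten = (List.replicate (k * l) r).flatten := by
  induction k with
  | zero => simp
  | succ k ih =>
    rw [List.replicate_succ, List.flatten_cons, ih, Nat.succ_mul, Nat.add_comm (k * l) l,
      List.replicate_add, List.flatten_append]

theorem flatten_replicate_length (k : ℕ) (r : List α) :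
    (List.replicate k r).flatten.length = k * r.length := by
  induction k with
  | zero => simp
  | succ k ih => rw [List.replicate_succ, List.flatten_cons, List.length_append, ih]; ring

theorem exists_root (N : ℕ) : ∀ u : List α, u ≠ [] → u.length ≤ N → ∃ r, IsRoot r u := by
  induction N with
  | zero =>
    intro u hu hl
    exact absurd (List.length_eq_zero_iff.mp (by omega)) hu
  | succ N ih =>
    intro u hu hl
    by_cases hp : IsPrimitive u
    · exact ⟨u, hp, 1, le_refl _, by simp⟩
    · unfold IsPrimitive at hp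
      push Not at hp
      obtain ⟨v, k, hk, hk1⟩ := hp hu
      have hul : 0 < u.length := List.length_pos_iff.mpr hu
      have hlen : u.length = k * v.length := by rw [hk, flatten_replicate_length]
      have hk0 : k ≠ 0 := by rintro rfl; omega
      have hv0 : v.length ≠ 0 := by intro h; rw [h] at hlen; omega
      have hvne : v ≠ [] := by rintro rfl; simp at hv0
      have hvl : v.length ≤ N := by
        have : 2 * v.length ≤ k * v.length := Nat.mul_le_mul_right _ (by omega)
        omega
      obtain ⟨r, hr, l, hl1, hl2⟩ := ih v hvne hvl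
      refine ⟨r, hr, k * l, ?_, ?_⟩
      · exact Nat.mul_pos (by omega) hl1
      · rw [hk, hl2, flatten_replicate_mul]

theorem seg_power {w : ℤ → α} {r : List α} {m : ℕ} (hr : r.length = m) (k : ℕ) :
    ∀ a : ℤ, seg w a (k * m) = (List.replicate k r).flatten → ∀ t < k, seg w (a + t * m) m = r := by
  induction k with
  | zero => intro a _ t ht; omega
  | succ k ih =>
    intro a h t ht
    rw [Nat.succ_mul, Nat.add_comm (k * m) m, seg_add, List.replicate_succ, List.flatten_cons] at h
    obtain ⟨h1, h2⟩ := List.append_inj h (by simp [hr])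
    rcases Nat.eq_zero_or_pos t with h0 | h0
    · rw [h0]; simpa using h1
    · have := ih (a + m) h2 (t - 1) (by omega)
      rw [← this]; congr 1
      push_cast [Nat.cast_sub (by omega : 1 ≤ t)]; ring

/-- Everything that is used about `X`. -/
structure Setup (X : Finset (List α)) (root : List α → List α) (m : ℕ) : Prop where
  hm : 0 < m
  len : ∀ x ∈ X, (root x).length = m
  pow : ∀ x ∈ X, ∃ k ≥ 1, x = (List.replicate k (root x)).flatten
  inj : ∀ x ∈ X, ∀ y ∈ X, root x = root y → x = y

theorem Setup.cut {X : Finset (List α)} {root : List α → List α} {m : ℕ} (hS : Setup X root m)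
    {w : ℤ → α} {d : ℤ → ℤ} (hd : IsFactorization X w d) (i : ℤ) :
    ∃ k : ℕ, 1 ≤ k ∧ d (i + 1) = d i + k * m ∧
      ∀ t < k, seg w (d i + t * m) m = root (block w (d i) (d (i + 1))) := by
  obtain ⟨k, hk, hpow⟩ := hS.pow _ (hd.mem i)
  have hlen := congrArg List.length hpow
  rw [flatten_replicate_length, hS.len _ (hd.mem i)] at hlen
  unfold block at hlen
  rw [seg_length] at hlen
  have hlt : d i < d (i + 1) := hd.strictMono (by omega)
  refine ⟨k, hk, ?_, ?_⟩
  · have h1 : ((d (i + 1) - d i).toNat : ℤ) = d (i + 1) - d i := Int.toNat_of_nonneg (by omega)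
    rw [hlen] at h1
    push_cast at h1; linarith
  · apply seg_power (hS.len _ (hd.mem i)) k
    rw [← hpow]
    unfold block
    rw [← hlen]

theorem Setup.window {X : Finset (List α)} {root : List α → List α} {m : ℕ} (hS : Setup X root m)
    {w : ℤ → α} {d : ℤ → ℤ} (hd : IsFactorization X w d) (z : ℤ) :
    ∃ (i : ℤ) (k t : ℕ), d (i + 1) = d i + k * m ∧ t < k ∧ d 0 + z * m = d i + t * m ∧
      (∀ t < k, seg w (d i + t * m) m = root (block w (d i) (d (i + 1)))) := by
  induction z using Int.induction_on with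
  | zero =>
    obtain ⟨k, hk, h1, h2⟩ := hS.cut hd 0
    exact ⟨0, k, 0, h1, hk, by simp, h2⟩
  | succ z ih =>
    obtain ⟨i, k, t, h1, h2, h3, h4⟩ := ih
    by_cases h : t + 1 < k
    · refine ⟨i, k, t + 1, h1, h, ?_, h4⟩
      push_cast; linarith
    · obtain ⟨k', hk', h1', h2'⟩ := hS.cut hd (i + 1)
      refine ⟨i + 1, k', 0, h1', hk', ?_, h2'⟩
      have : k = t + 1 := by omega
      rw [h1, this]; push_cast; linarith
  | pred z ih =>
    obtain ⟨i, k, t, h1, h2, h3, h4⟩ := ih
    rcases Nat.eq_zero_or_pos t with h | h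
    · obtain ⟨k', hk', h1', h2'⟩ := hS.cut hd (i - 1)
      rw [sub_add_cancel] at h1' h2'
      refine ⟨i - 1, k', k' - 1, ?_, by omega, ?_, ?_⟩
      · rw [sub_add_cancel]; exact h1'
      · rw [h] at h3
        push_cast [Nat.cast_sub hk'] at h3 ⊢
        linarith
      · rw [sub_add_cancel]; exact h2'
    · refine ⟨i, k, t - 1, h1, by omega, ?_, h4⟩
      push_cast [Nat.cast_sub (by omega : 1 ≤ t)]
      linarith

/-- If all windows are equal then all blocks are equal. -/
theorem Setup.const {X : Finset (List α)} {root : List α → List α} {m : ℕ} (hS : Setup X root m)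
    {w : ℤ → α} {d : ℤ → ℤ} (hd : IsFactorization X w d)
    (hconst : ∀ z : ℤ, seg w (d 0 + z * m) m = seg w (d 0) m) :
    ∃ x ∈ X, ∀ i, block w (d i) (d (i + 1)) = x := by
  have hcong : ∀ i : ℤ, ∃ z : ℤ, d i = d 0 + z * m := by
    intro i
    induction i using Int.induction_on with
    | zero => exact ⟨0, by simp⟩
    | succ i ih =>
      obtain ⟨z, hz⟩ := ih
      obtain ⟨k, _, h1, _⟩ := hS.cut hd i
      exact ⟨z + k, by rw [h1, hz]; ring⟩
    | pred i ih =>
      obtain ⟨z, hz⟩ := ih
      obtain ⟨k, _, h1, _⟩ := hS.cut hd (-(i : ℤ) - 1)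
      rw [sub_add_cancel] at h1
      exact ⟨z - k, by rw [hz] at h1; linarith⟩
  have hroot : ∀ i, root (block w (d i) (d (i + 1))) = seg w (d 0) m := by
    intro i
    obtain ⟨k, hk, _, h2⟩ := hS.cut hd i
    obtain ⟨z, hz⟩ := hcong i
    rw [← h2 0 hk]
    simp only [Nat.cast_zero, zero_mul, add_zero]
    rw [hz]; exact hconst z
  refine ⟨block w (d 0) (d (0 + 1)), hd.mem 0, fun i => ?_⟩
  exact hS.inj _ (hd.mem i) _ (hd.mem 0) (by rw [hroot i, hroot 0])

/-- Two factorizations with the same residue of the cut points. -/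
theorem Setup.sameResidue {X : Finset (List α)} {root : List α → List α} {m : ℕ}
    (hS : Setup X root m) {w : ℤ → α} {d d' : ℤ → ℤ} (hd : IsFactorization X w d)
    (hd' : IsFactorization X w d') (hne : Set.range d ≠ Set.range d') {z₀ : ℤ}
    (hz₀ : d' 0 = d 0 + z₀ * m) (z : ℤ) : seg w (d 0 + z * m) m = seg w (d 0) m := by
  have step : ∀ z : ℤ, seg w (d 0 + (z + 1) * m) m = seg w (d 0 + z * m) m := by
    intro z
    by_contra hdiff
    apply hne
    obtain ⟨i, k, t, h1, h2, h3, h4⟩ := hS.window hd z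
    obtain ⟨j, k', t', h1', h2', h3', h4'⟩ := hS.window hd' (z - z₀)
    have c1 : d (i + 1) = d 0 + (z + 1) * m := by
      by_cases h : t + 1 < k
      · exfalso
        apply hdiff
        have e1 := h4 t h2
        have e2 := h4 (t + 1) h
        rw [← h3] at e1
        rw [show d i + ((t + 1 : ℕ) : ℤ) * m = d 0 + (z + 1) * m by push_cast; linarith] at e2
        rw [e1, e2]
      · have : k = t + 1 := by omega
        rw [h1, this]; push_cast; linarith
    have c2 : d' (j + 1) = d 0 + (z + 1) * m := by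
      by_cases h : t' + 1 < k'
      · exfalso
        apply hdiff
        have e1 := h4' t' h2'
        have e2 := h4' (t' + 1) h
        rw [show d' j + (t' : ℤ) * m = d 0 + z * m by rw [← h3', hz₀]; ring] at e1
        rw [show d' j + ((t' + 1 : ℕ) : ℤ) * m = d 0 + (z + 1) * m by
          push_cast; rw [hz₀] at h3'; linarith] at e2
        rw [e1, e2]
      · have : k' = t' + 1 := by omega
        rw [h1', this]; rw [hz₀] at h3'; push_cast; linarith
    -- a common cut
    have up : ∀ i j, d i = d' j → d (i + 1) = d' (j + 1) := by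
      intro i j hij
      obtain ⟨k, hk, a1, a2⟩ := hS.cut hd i
      obtain ⟨k', hk', b1, b2⟩ := hS.cut hd' j
      have e1 := a2 0 hk
      have e2 := b2 0 hk'
      rw [← hij] at e2
      have e3 : block w (d i) (d (i + 1)) = block w (d' j) (d' (j + 1)) :=
        hS.inj _ (hd.mem i) _ (hd'.mem j) (by rw [← e1, e2, hij])
      have e4 := congrArg List.length e3
      unfold block at e4
      rw [seg_length, seg_length] at e4
      have l1 : d i < d (i + 1) := hd.strictMono (by omega)
      have l2 : d' j < d' (j + 1) := hd'.strictMono (by omega)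
      omega
    have down : ∀ i j, d i = d' j → d (i - 1) = d' (j - 1) := by
      intro i j hij
      obtain ⟨k, hk, a1, a2⟩ := hS.cut hd (i - 1)
      obtain ⟨k', hk', b1, b2⟩ := hS.cut hd' (j - 1)
      rw [sub_add_cancel] at a1 a2 b1 b2
      have e1 := a2 (k - 1) (by omega)
      have e2 := b2 (k' - 1) (by omega)
      rw [show d (i - 1) + ((k - 1 : ℕ) : ℤ) * m = d i - m by
        push_cast [Nat.cast_sub hk]; linarith] at e1
      rw [show d' (j - 1) + ((k' - 1 : ℕ) : ℤ) * m = d i - m by
        push_cast [Nat.cast_sub hk']; linarith] at e2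
      have m1 := hd.mem (i - 1)
      have m2 := hd'.mem (j - 1)
      rw [sub_add_cancel] at m1 m2
      have e3 : block w (d (i - 1)) (d i) = block w (d' (j - 1)) (d' j) :=
        hS.inj _ m1 _ m2 (by rw [← e1, ← e2])
      have e4 := congrArg List.length e3
      unfold block at e4
      rw [seg_length, seg_length] at e4
      have l1 : d (i - 1) < d i := hd.strictMono (by omega)
      have l2 : d' (j - 1) < d' j := hd'.strictMono (by omega)
      omega
    have all : ∀ n : ℤ, d (i + 1 + n) = d' (j + 1 + n) := by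
      intro n
      induction n using Int.induction_on with
      | zero => rw [add_zero, add_zero, c1, c2]
      | succ n ih => rw [← add_assoc, ← add_assoc]; exact up _ _ ih
      | pred n ih => rw [← add_sub_assoc, ← add_sub_assoc]; exact down _ _ ih
    ext y
    constructor
    · rintro ⟨n, rfl⟩
      exact ⟨j + 1 + (n - (i + 1)), by rw [← all]; congr 1; ring⟩
    · rintro ⟨n, rfl⟩
      exact ⟨i + 1 + (n - (j + 1)), by rw [all]; congr 1; ring⟩
  induction z using Int.induction_on with
  | zero => simp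
  | succ z ih => rw [step, ih]
  | pred z ih =>
    have := step (-(z : ℤ) - 1)
    rw [sub_add_cancel] at this
    rw [← this, ih]

/-- Two factorizations with different residues of the cut points. -/
theorem otherResidue (R : Finset (List α)) (m : ℕ) (hm : 0 < m) (w : ℤ → α)
    (hconj : ∀ W ∈ R, ∀ W' ∈ R, W ~r W') (a₀ : ℤ) (c : ℕ) (hc0 : 0 < c) (hcm : c < m)
    (hA : ∀ j : ℤ, seg w (a₀ + j * m) m ∈ R) (hB : ∀ j : ℤ, seg w (a₀ + c + j * m) m ∈ R)
    (hmin : ∀ Z : Finset (List α), (∀ z ∈ Z, z ≠ []) → (∀ W ∈ R, W ∈ Gen (Z : Set (List α))) →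
      R.card ≤ Z.card) (z : ℤ) : seg w (a₀ + z * m) m = seg w a₀ m := by
  classical
  let _ : LinearOrder α := linearOrderOfSTO WellOrderingRel
  set P : ℤ → List α := fun j => seg w (a₀ + j * m) c with hP
  set Q : ℤ → List α := fun j => seg w (a₀ + c + j * m) (m - c) with hQ
  have hPQ' : ∀ j, P j ++ Q j = seg w (a₀ + j * m) m := by
    intro j
    simp only [hP, hQ]
    rw [show a₀ + c + j * m = a₀ + j * m + c by ring, ← seg_add, show c + (m - c) = m by omega]
  have hQP' : ∀ j, Q j ++ P (j + 1) = seg w (a₀ + c + j * m) m := by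
    intro j
    simp only [hP, hQ]
    rw [show a₀ + (j + 1) * m = a₀ + c + j * m + ((m - c : ℕ) : ℤ) by
      push_cast [Nat.cast_sub hcm.le]; ring, ← seg_add, show m - c + c = m by omega]
  by_contra hcon
  have hnc : ¬ ∀ j, P j = P 0 ∧ Q j = Q 0 := by
    intro h
    apply hcon
    have e1 := hPQ' z
    have e2 := hPQ' 0
    rw [zero_mul, add_zero] at e2
    rw [← e1, ← e2, (h z).1, (h z).2]
  obtain ⟨j, hj⟩ := turn_exists R hconj P Q (fun i j => by simp [hP]) (fun i j => by simp [hQ])
    (fun j => by rw [hPQ']; exact hA j) (fun j => by rw [hQP']; exact hB j) hnc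
  -- the cut points
  set p : ℤ → ℤ := fun i => a₀ + (i / 2) * m + (i % 2) * c with hp_def
  have pe : ∀ j : ℤ, p (2 * j) = a₀ + j * m := by
    intro j
    simp only [hp_def]
    rw [show (2 * j) / 2 = j by omega, show (2 * j) % 2 = 0 by omega]; ring
  have po : ∀ j : ℤ, p (2 * j + 1) = a₀ + c + j * m := by
    intro j
    simp only [hp_def]
    rw [show (2 * j + 1) / 2 = j by omega, show (2 * j + 1) % 2 = 1 by omega]; ring
  have hp : ∀ i, p (i + 2) = p i + m := by
    intro i
    simp only [hp_def]
    rw [show (i + 2) / 2 = i / 2 + 1 by omega, show (i + 2) % 2 = i % 2 by omega]; ring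
  have hR : ∀ i, seg w (p i) m ∈ R := by
    intro i
    rcases Int.even_or_odd' i with ⟨k, rfl | rfl⟩
    · rw [pe]; exact hA k
    · rw [po]; exact hB k
  have pm1 : p (2 * j - 1) = a₀ + c + (j - 1) * m := by
    rw [show 2 * j - 1 = 2 * (j - 1) + 1 by ring, po]
  have pp2 : p (2 * j + 1 + 1) = a₀ + (j + 1) * m := by
    rw [show 2 * j + 1 + 1 = 2 * (j + 1) by ring, pe]
  have hcc : ((m - c : ℕ) : ℤ) = m - c := by push_cast [Nat.cast_sub hcm.le]; ring
  have bad : ∃ Z : Finset (List α), (∀ z ∈ Z, z ≠ []) ∧ Z.card < R.card ∧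
      ∀ W ∈ R, W ∈ Gen (Z : Set (List α)) := by
    rcases hj with ⟨h1, h2⟩ | ⟨h1, h2⟩ | ⟨h1, h2⟩ | ⟨h1, h2⟩
    · refine lt_core R m hm w p hp hR hconj (2 * j) c (m - c) hc0 (by omega) ?_ ?_ ?_ ?_
      · rw [po, pe]; ring
      · rw [pe, pm1, hcc]; ring
      · rw [po, pe]; exact h2
      · rw [pm1, po]; exact h1
    · refine rt_core R m hm w p hp hR hconj (2 * j) c (m - c) hc0 (by omega) ?_ ?_ ?_ ?_
      · rw [po, pe]; ring
      · rw [pe, pm1, hcc]; ring
      · rw [pe, pm1]; exact h2
      · rw [pm1, po]; exact h1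
    · refine rt_core R m hm w p hp hR hconj (2 * j + 1) (m - c) c (by omega) (by omega) ?_ ?_ ?_ ?_
      · rw [po, pp2, hcc]; ring
      · rw [add_sub_cancel_right, po, pe]; ring
      · rw [add_sub_cancel_right, po, pe]; exact h2
      · rw [add_sub_cancel_right, pe, pp2]; exact h1
    · refine lt_core R m hm w p hp hR hconj (2 * j + 1) (m - c) c (by omega) (by omega) ?_ ?_ ?_ ?_
      · rw [po, pp2, hcc]; ring
      · rw [add_sub_cancel_right, po, pe]; ring
      · rw [po, pp2]; exact h2
      · rw [add_sub_cancel_right, pe, pp2]; exact h1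
  obtain ⟨Z, z1, z2, z3⟩ := bad
  exact absurd (hmin Z z1 z3) (by omega)

end final

open Classical in
/-- **Bi-infinite factorizations over sets of words with conjugate roots.**  Let `X` be a finite
set of non-empty words with combinatorial rank `|X|`, such that the primitive roots of the
elements of `X` are pairwise conjugate.  If a bi-infinite word `w` has two different
`X`-factorizations, then every `X`-factorization of `w` has all its blocks equal. -/
theorem result (α : Type u) (X : Finset (List α)) (hne : ∀ x ∈ X, x ≠ [])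
    (hrank : combRank X = X.card)
    (hroots : ∀ u ∈ X, ∀ v ∈ X, ∀ r s, IsRoot r u → IsRoot s v → r ~r s)
    (w : ℤ → α)
    (hw : ∃ c c', IsFactorization X w c ∧ IsFactorization X w c' ∧ Set.range c ≠ Set.range c') :
    ∀ d, IsFactorization X w d → ∃ x ∈ X, ∀ i, block w (d i) (d (i + 1)) = x := by
  intro d hd
  -- a factorization different from `d`
  obtain ⟨d', hd', hdd⟩ : ∃ d', IsFactorization X w d' ∧ Set.range d ≠ Set.range d' := by
    obtain ⟨c, c', hc, hc', hcc⟩ := hw
    by_cases h : Set.range d = Set.range c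
    · exact ⟨c', hc', by rw [h]; exact hcc⟩
    · exact ⟨c, hc, h⟩
  have hex : ∀ x : List α, ∃ r, x ∈ X → IsRoot r x := by
    intro x
    by_cases hx : x ∈ X
    · obtain ⟨r, hr⟩ := exists_root x.length x (hne x hx) le_rfl
      exact ⟨r, fun _ => hr⟩
    · exact ⟨[], fun h => absurd h hx⟩
  choose root hroot using hex
  set x₀ := block w (d 0) (d (0 + 1)) with hx₀
  have hx₀X : x₀ ∈ X := hd.mem 0
  set m := (root x₀).length with hm_def
  set R : Finset (List α) := X.image root with hR
  have hm : 0 < m := List.length_pos_iff.mpr (hroot x₀ hx₀X).1.1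
  have hlen : ∀ x ∈ X, (root x).length = m := by
    intro x hx
    exact (hroots x hx x₀ hx₀X _ _ (hroot x hx) (hroot x₀ hx₀X)).perm.length_eq
  have hRne : ∀ W ∈ R, W ≠ [] := by
    intro W hW
    rw [hR, Finset.mem_image] at hW
    obtain ⟨x, hx, rfl⟩ := hW
    exact (hroot x hx).1.1
  have hXR : ∀ x ∈ X, x ∈ Gen (R : Set (List α)) := by
    intro x hx
    obtain ⟨_, k, _, hk⟩ := hroot x hx
    refine ⟨List.replicate k (root x), ?_, hk.symm⟩
    intro u hu
    rw [List.eq_of_mem_replicate hu]
    exact Finset.mem_image_of_mem _ hx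
  have hrank_le : ∀ Z : Finset (List α), (∀ z ∈ Z, z ≠ []) →
      (∀ x ∈ X, x ∈ Gen (Z : Set (List α))) → X.card ≤ Z.card := by
    intro Z h1 h2
    rw [← hrank]
    exact Nat.sInf_le ⟨Z, h1, h2, rfl⟩
  have hcard : R.card = X.card := le_antisymm Finset.card_image_le (hrank_le R hRne hXR)
  have hinj : Set.InjOn root (X : Set (List α)) := Finset.card_image_iff.mp hcard
  have hS : Setup X root m :=
    ⟨hm, hlen, fun x hx => (hroot x hx).2, fun x hx y hy h => hinj hx hy h⟩
  apply hS.const hd
  intro z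
  by_cases hres : (d' 0 - d 0) % (m : ℤ) = 0
  · obtain ⟨z₀, hz₀⟩ := Int.dvd_of_emod_eq_zero hres
    exact hS.sameResidue hd hd' hdd (z₀ := z₀) (by linarith [mul_comm (m : ℤ) z₀]) z
  · have r0 : 0 ≤ (d' 0 - d 0) % (m : ℤ) := Int.emod_nonneg _ (by omega)
    have r1 : (d' 0 - d 0) % (m : ℤ) < m := Int.emod_lt_of_pos _ (by omega)
    have hdiv : (m : ℤ) * ((d' 0 - d 0) / m) + (d' 0 - d 0) % m = d' 0 - d 0 :=
      Int.mul_ediv_add_emod (d' 0 - d 0) m
    have hcast : (((d' 0 - d 0) % (m : ℤ)).toNat : ℤ) = (d' 0 - d 0) % (m : ℤ) :=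
      Int.toNat_of_nonneg r0
    refine otherResidue R m hm w ?_ (d 0) ((d' 0 - d 0) % (m : ℤ)).toNat (by omega) (by omega)
      ?_ ?_ ?_ z
    · intro W hW W' hW'
      rw [hR, Finset.mem_image] at hW hW'
      obtain ⟨x, hx, rfl⟩ := hW
      obtain ⟨x', hx', rfl⟩ := hW'
      exact hroots x hx x' hx' _ _ (hroot x hx) (hroot x' hx')
    · intro j
      obtain ⟨i, k, t, h1, h2, h3, h4⟩ := hS.window hd j
      rw [h3, h4 t h2]
      exact Finset.mem_image_of_mem _ (hd.mem i)
    · intro j
      obtain ⟨i, k, t, h1, h2, h3, h4⟩ := hS.window hd' (j - (d' 0 - d 0) / m)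
      have : d 0 + (((d' 0 - d 0) % (m : ℤ)).toNat : ℤ) + j * m = d' i + t * m := by
        rw [← h3, hcast]; linarith [mul_comm (m : ℤ) ((d' 0 - d 0) / m)]
      rw [this, h4 t h2]
      exact Finset.mem_image_of_mem _ (hd'.mem i)
    · intro Z h1 h2
      rw [hcard]
      exact hrank_le Z h1 (fun x hx => Gen.trans h2 (hXR x hx))

end Pool.Agent.Results.MP_b2f7c1_co.ConjugateRoots
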